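import Pool.Agent.Results.MP_d8b6f8_al.NotDClass

set_option autoImplicit false

/-!
The Schunck classes of the starting file, for every prime `p ≡ 2 (mod 3)`, `p ≥ 5`.
-/

namespace Pool.Agent.Y434.SK

open Pool.Agent.Results.MP_d8b6f8_al.NotDClass (GroupClass IsPrim IsSchunck prodClass IsMaxSub
  IsProj IsDClass isPrim_transport descend par)

/-- the primes `p ≡ 2 (mod 3)` with `p ≥ 5` -/
class Good (p : ℕ) : Prop where
  prime : p.Prime
  five : 5 ≤ p
  two : p % 3 = 2

instance factGood {p : ℕ} [h : Good p] : Fact p.Prime := ⟨h.prime⟩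

/-- the plane over `F_p` -/
abbrev Pl (p : ℕ) := ZMod p × ZMod p

/-- an automorphism of order three -/
def rot {p : ℕ} (v : Pl p) : Pl p := (-v.2, v.1 - v.2)

/-- iterates -/
def RR {p : ℕ} (i : ZMod 3) (v : Pl p) : Pl p := rot^[i.val] v

/-- action of the dihedral group of order six on the plane -/
def act {p : ℕ} : DihedralGroup 3 → Pl p → Pl p
  | DihedralGroup.r i, v => RR i v
  | DihedralGroup.sr i, v => (RR i v).swap

lemma rot3 {p : ℕ} (v : Pl p) : rot (rot (rot v)) = v := by
  apply Prod.ext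
  · show -(-v.2 - (v.1 - v.2)) = v.1
    ring
  · show -(v.1 - v.2) - (-v.2 - (v.1 - v.2)) = v.2
    ring

lemma three_cases (i : ZMod 3) : i = 0 ∨ i = 1 ∨ i = 2 := by
  revert i
  decide

lemma R0 {p : ℕ} (v : Pl p) : RR 0 v = v := rfl
lemma R1 {p : ℕ} (v : Pl p) : RR 1 v = rot v := rfl
lemma R2 {p : ℕ} (v : Pl p) : RR 2 v = rot (rot v) := rfl

lemma R_add {p : ℕ} (i j : ZMod 3) (v : Pl p) : RR (i + j) v = RR i (RR j v) := by
  rcases three_cases i with rfl | rfl | rfl
  · rw [zero_add]; rfl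
  · rcases three_cases j with rfl | rfl | rfl
    · rfl
    · rfl
    · rw [show (1 + 2 : ZMod 3) = 0 from by decide, R0, R1, R2, rot3]
  · rcases three_cases j with rfl | rfl | rfl
    · rfl
    · rw [show (2 + 1 : ZMod 3) = 0 from by decide, R0, R1, R2, rot3]
    · rw [show (2 + 2 : ZMod 3) = 1 from by decide, R2, R1, R2, rot3]

lemma rot_add {p : ℕ} (v w : Pl p) : rot (v + w) = rot v + rot w := by
  apply Prod.ext
  · show -(v.2 + w.2) = -v.2 + -w.2
    ring
  · show (v.1 + w.1) - (v.2 + w.2) = (v.1 - v.2) + (w.1 - w.2)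
    ring

lemma R_add' {p : ℕ} (i : ZMod 3) (v w : Pl p) : RR i (v + w) = RR i v + RR i w := by
  rcases three_cases i with rfl | rfl | rfl
  · rfl
  · rw [R1, R1, R1, rot_add]
  · rw [R2, R2, R2, rot_add, rot_add]

lemma rot_swap {p : ℕ} (v : Pl p) : rot v.swap = (rot (rot v)).swap := by
  apply Prod.ext
  · show -v.1 = -v.2 - (v.1 - v.2)
    ring
  · show v.2 - v.1 = -(v.1 - v.2)
    ring

lemma R_swap {p : ℕ} (i : ZMod 3) (v : Pl p) : RR i v.swap = (RR (-i) v).swap := by
  rcases three_cases i with rfl | rfl | rfl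
  · rfl
  · rw [show (-1 : ZMod 3) = 2 from by decide, R1, R2, rot_swap]
  · rw [show (-2 : ZMod 3) = 1 from by decide, R1, R2, rot_swap, rot_swap, rot3]

lemma act_add {p : ℕ} (q : DihedralGroup 3) (v w : Pl p) : act q (v + w) = act q v + act q w := by
  cases q with
  | r i => exact R_add' i v w
  | sr i =>
    show (RR i (v + w)).swap = (RR i v).swap + (RR i w).swap
    rw [R_add']
    rfl

lemma act_mul {p : ℕ} (a b : DihedralGroup 3) (v : Pl p) : act (a * b) v = act a (act b v) := by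
  cases a with
  | r i =>
    cases b with
    | r j =>
      rw [DihedralGroup.r_mul_r]
      exact R_add i j v
    | sr j =>
      rw [DihedralGroup.r_mul_sr]
      show (RR (j - i) v).swap = RR i (RR j v).swap
      rw [R_swap, ← R_add, neg_add_eq_sub]
  | sr i =>
    cases b with
    | r j =>
      rw [DihedralGroup.sr_mul_r]
      show (RR (i + j) v).swap = (RR i (RR j v)).swap
      rw [R_add]
    | sr j =>
      rw [DihedralGroup.sr_mul_sr]
      show RR (j - i) v = (RR i (RR j v).swap).swap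
      rw [R_swap, Prod.swap_swap, ← R_add, neg_add_eq_sub]

lemma act_one {p : ℕ} (v : Pl p) : act 1 v = v := rfl

lemma act_zero {p : ℕ} (q : DihedralGroup 3) : act q (0 : Pl p) = 0 := by
  have h := act_add q (0 : Pl p) 0
  rw [add_zero] at h
  exact (left_eq_add.1 h)

/-- The group of order `6 p²`: the semidirect product of the plane over `F_p` with the dihedral
group of order six. -/
@[ext] structure Gp (p : ℕ) where
  v : Pl p
  q : DihedralGroup 3

variable {p : ℕ}

instance : Mul (Gp p) := ⟨fun a b => ⟨a.v + act a.q b.v, a.q * b.q⟩⟩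
instance : One (Gp p) := ⟨⟨0, 1⟩⟩
instance : Inv (Gp p) := ⟨fun a => ⟨-(act a.q⁻¹ a.v), a.q⁻¹⟩⟩

@[simp] lemma mul_v (a b : (Gp p)) : (a * b).v = a.v + act a.q b.v := rfl
@[simp] lemma mul_q (a b : (Gp p)) : (a * b).q = a.q * b.q := rfl
@[simp] lemma one_v : (1 : (Gp p)).v = 0 := rfl
@[simp] lemma one_q : (1 : (Gp p)).q = 1 := rfl
@[simp] lemma inv_v (a : (Gp p)) : (a⁻¹).v = -(act a.q⁻¹ a.v) := rfl
@[simp] lemma inv_q (a : (Gp p)) : (a⁻¹).q = a.q⁻¹ := rfl

instance : Group (Gp p) := Group.ofLeftAxioms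
  (by
    intro a b c
    ext1
    · simp only [mul_v, mul_q, act_add, act_mul, add_assoc]
    · simp only [mul_q, mul_assoc])
  (by
    intro a
    ext1
    · simp only [mul_v, one_v, one_q, act_one, zero_add]
    · simp only [mul_q, one_q, one_mul])
  (by
    intro a
    ext1
    · simp only [mul_v, inv_v, inv_q, one_v, neg_add_cancel]
    · simp only [mul_q, inv_q, one_q, inv_mul_cancel])

/-- forget the group structure -/
def gpEquiv : (Gp p) ≃ (Pl p) × DihedralGroup 3 where
  toFun g := (g.v, g.q)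
  invFun z := ⟨z.1, z.2⟩
  left_inv _ := rfl
  right_inv _ := rfl

variable [Good p]

instance : Finite (Gp p) := Finite.of_equiv _ gpEquiv.symm

lemma card_Gp : Nat.card (Gp p) = 6 * (p * p) := by
  rw [Nat.card_congr gpEquiv, Nat.card_prod, Nat.card_prod, Nat.card_zmod, DihedralGroup.nat_card]
  ring

/-- the projection onto the dihedral group -/
def pr : (Gp p) →* DihedralGroup 3 where
  toFun g := g.q
  map_one' := rfl
  map_mul' _ _ := rfl

/-- the plane as a subgroup -/
def tr (v : (Pl p)) : (Gp p) := ⟨v, 1⟩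

/-- the inclusion of the plane -/
def trHom : Multiplicative (Pl p) →* (Gp p) where
  toFun v := ⟨Multiplicative.toAdd v, 1⟩
  map_one' := rfl
  map_mul' a b := by
    ext1
    · simp only [toAdd_mul, mul_v, act_one]
    · simp only [mul_q, mul_one]

instance : Group.IsSolvable (Gp p) := by
  apply Group.isSolvable_of_ker_le_range (trHom (p := p)) (pr (p := p))
  intro x hx
  rw [MonoidHom.mem_ker] at hx
  exact ⟨Multiplicative.ofAdd x.v, by
    ext1
    · rfl
    · exact hx.symm⟩

/-- The subgroup of order `3 p²`. -/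
def Ks (p : ℕ) [Good p] : Subgroup (Gp p) := (par.comp pr).ker

/-- The normal subgroup of order `p²`. -/
def Vs (p : ℕ) [Good p] : Subgroup (Gp p) := pr.ker

instance : (Vs p).Normal := by unfold Vs; infer_instance

lemma mem_Vs {g : (Gp p)} : g ∈ (Vs p) ↔ g.q = 1 := Iff.rfl

lemma mem_Ks {g : (Gp p)} : g ∈ (Ks p) ↔ ∃ i, g.q = DihedralGroup.r i := by
  change par g.q = 1 ↔ _
  generalize g.q = q
  revert q
  decide +kernel

/-- the rotation as an element of the group -/
def cc : (Gp p) := ⟨0, DihedralGroup.r 1⟩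

lemma cc_mem : cc ∈ (Ks p) := mem_Ks.mpr ⟨1, rfl⟩

lemma Vs_le_Ks : (Vs p) ≤ (Ks p) := by
  intro g hg
  exact mem_Ks.mpr ⟨0, hg⟩

lemma two_ne : (2 : ZMod p) ≠ 0 := by
  intro h
  have h1 : ((2 : ℕ) : ZMod p) = 0 := by exact_mod_cast h
  rw [ZMod.natCast_eq_zero_iff] at h1
  have h2 := Nat.le_of_dvd (by norm_num) h1
  have h3 := Good.five (p := p)
  omega

lemma three_ne : (3 : ZMod p) ≠ 0 := by
  intro h
  have h1 : ((3 : ℕ) : ZMod p) = 0 := by exact_mod_cast h
  rw [ZMod.natCast_eq_zero_iff] at h1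
  have h2 := Nat.le_of_dvd (by norm_num) h1
  have h3 := Good.five (p := p)
  omega

lemma no_root (t : ZMod p) (h : t * t + t + 1 = 0) : False := by
  have h0 : t ≠ 0 := by
    rintro rfl
    simp at h
  have h1 : t ≠ 1 := by
    rintro rfl
    apply three_ne (p := p)
    linear_combination h
  have h3 : t ^ 3 = 1 := by linear_combination (t - 1) * h
  haveI : Fact (Nat.Prime 3) := ⟨Nat.prime_three⟩
  have h4 := orderOf_eq_prime h3 h1
  have h5 := ZMod.orderOf_dvd_card_sub_one h0
  rw [h4] at h5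
  have h6 := Good.two (p := p)
  have h7 := Good.five (p := p)
  omega

lemma form_ne (v : Pl p) (hv : v ≠ 0) : v.1 * v.1 - v.1 * v.2 + v.2 * v.2 ≠ 0 := by
  intro h
  by_cases h2 : v.2 = 0
  · apply hv
    apply Prod.ext _ h2
    rw [h2] at h
    have h3 : v.1 * v.1 = 0 := by linear_combination h
    exact mul_self_eq_zero.1 h3
  · apply no_root (-(v.1 / v.2))
    field_simp
    linear_combination h

lemma span_plane (v w : (Pl p)) (hv : v ≠ 0) : ∃ a b : ZMod p, w = (a.val) • v + (b.val) • rot v := by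
  have hD := form_ne v hv
  refine ⟨(w.1 * (v.1 - v.2) + v.2 * w.2) / (v.1 * v.1 - v.1 * v.2 + v.2 * v.2),
    (v.1 * w.2 - v.2 * w.1) / (v.1 * v.1 - v.1 * v.2 + v.2 * v.2), ?_⟩
  apply Prod.ext
  · rw [Prod.fst_add, Prod.smul_fst, Prod.smul_fst, nsmul_eq_mul, nsmul_eq_mul,
      ZMod.natCast_zmod_val, ZMod.natCast_zmod_val]
    show w.1 = _ / _ * v.1 + _ / _ * (-v.2)
    rw [div_mul_eq_mul_div, div_mul_eq_mul_div, ← add_div, eq_div_iff hD]
    ring
  · rw [Prod.snd_add, Prod.smul_snd, Prod.smul_snd, nsmul_eq_mul, nsmul_eq_mul,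
      ZMod.natCast_zmod_val, ZMod.natCast_zmod_val]
    show w.2 = _ / _ * v.2 + _ / _ * (v.1 - v.2)
    rw [div_mul_eq_mul_div, div_mul_eq_mul_div, ← add_div, eq_div_iff hD]
    ring

lemma moves (q : DihedralGroup 3) (hq : q ≠ 1) : ∃ v : (Pl p), act q v - v ≠ 0 := by
  have key1 : ∀ v w : Pl p, v.1 - w.1 ≠ 0 → v - w ≠ 0 := fun v w h h' => h (congrArg Prod.fst h')
  have key2 : ∀ v w : Pl p, v.2 - w.2 ≠ 0 → v - w ≠ 0 := fun v w h h' => h (congrArg Prod.snd h')
  cases q with
  | r i =>
    rcases three_cases i with rfl | rfl | rfl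
    · exact absurd rfl hq
    · refine ⟨(1, 0), key1 _ _ ?_⟩
      show (-0 - 1 : ZMod p) ≠ 0
      simp
    · refine ⟨(1, 0), key2 _ _ ?_⟩
      show (-0 - (1 - 0) - 0 : ZMod p) ≠ 0
      simp
  | sr i =>
    rcases three_cases i with rfl | rfl | rfl
    · refine ⟨(1, 0), key1 _ _ ?_⟩
      show (0 - 1 : ZMod p) ≠ 0
      simp
    · refine ⟨(0, 1), key1 _ _ ?_⟩
      show (0 - 1 - 0 : ZMod p) ≠ 0
      simp
    · refine ⟨(1, 0), key2 _ _ ?_⟩
      show (-(1 - 0) - 0 : ZMod p) ≠ 0
      simp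

lemma tr_pow (v : (Pl p)) (n : ℕ) : (tr v) ^ n = tr (n • v) := by
  induction n with
  | zero =>
    ext1
    · simp [tr]
    · simp [tr]
  | succ n ih =>
    rw [pow_succ, ih]
    ext1
    · simp only [tr, mul_v, act_one]
      rw [succ_nsmul]
    · simp [tr]

lemma conj_cc (v : (Pl p)) : cc * tr v * cc⁻¹ = tr (rot v) := by
  ext1
  · simp only [cc, tr, mul_v, mul_q, inv_v]
    rw [act_zero]
    simp only [neg_zero, act_zero, zero_add, add_zero]
    rfl
  · simp [cc, tr]

/-- A nontrivial subgroup normalised by `(Ks p)` contains `(Vs p)`. -/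
lemma Vs_le_of_normalised {N : Subgroup (Gp p)} (hN : N ≠ ⊥)
    (hn : ∀ k ∈ (Ks p), ∀ n ∈ N, k * n * k⁻¹ ∈ N) : (Vs p) ≤ N := by
  -- a nontrivial translation in `N`
  have h1 : ∃ v : (Pl p), v ≠ 0 ∧ tr v ∈ N := by
    obtain ⟨n, hnN, hn1⟩ := N.bot_or_exists_ne_one.resolve_left hN
    by_cases hq : n.q = 1
    · refine ⟨n.v, ?_, ?_⟩
      · intro h0
        apply hn1
        ext1
        · exact h0
        · exact hq
      · have : tr n.v = n := by
          ext1
          · rfl
          · exact hq.symm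
        rw [this]; exact hnN
    · obtain ⟨v, hv⟩ := moves (p := p) n.q hq
      refine ⟨act n.q v - v, hv, ?_⟩
      have h2 : n * (tr v * n⁻¹ * (tr v)⁻¹) ∈ N := by
        apply N.mul_mem hnN
        exact hn (tr v) (Vs_le_Ks rfl) _ (N.inv_mem hnN)
      have h3 : n * (tr v * n⁻¹ * (tr v)⁻¹) = tr (act n.q v - v) := by
        have e1 : act n.q (-act n.q⁻¹ n.v) = - n.v := by
          have h4 : act n.q (-act n.q⁻¹ n.v) + act n.q (act n.q⁻¹ n.v) = 0 := by
            rw [← act_add, neg_add_cancel, act_zero]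
          rw [← act_mul, mul_inv_cancel, act_one] at h4
          exact eq_neg_of_add_eq_zero_left h4
        ext1
        · simp only [tr, mul_v, mul_q, inv_v, inv_q, act_one, inv_one, one_mul, act_add, e1]
          rw [← act_mul, mul_inv_cancel, act_one]
          abel
        · simp [tr]
      rw [← h3]; exact h2
  obtain ⟨v, hv, hvN⟩ := h1
  have h2 : tr (rot v) ∈ N := by
    rw [← conj_cc]
    exact hn cc cc_mem _ hvN
  intro g hg
  obtain ⟨a, b, hab⟩ := span_plane v g.v hv
  have : g = (tr v) ^ a.val * (tr (rot v)) ^ b.val := by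
    rw [tr_pow, tr_pow]
    ext1
    · simp only [tr, mul_v, act_one]
      exact hab
    · simp only [tr, mul_q, mul_one]
      exact hg
  rw [this]
  exact N.mul_mem (N.pow_mem hvN _) (N.pow_mem h2 _)


/-! ### The Schunck class -/

/-- The class: finite soluble groups without epimorphic images isomorphic to the cyclic group of
order `5`, to `(Ks p)` (order `75`) or to `(Gp p)` (order `150`). -/
def XX (p : ℕ) [Good p] : GroupClass := fun R _ =>
  Finite R ∧ Group.IsSolvable R ∧ (∀ f : R →* Multiplicative (ZMod p), ¬ Function.Surjective f) ∧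
    (∀ f : R →* (Ks p), ¬ Function.Surjective f) ∧ (∀ f : R →* (Gp p), ¬ Function.Surjective f)

lemma XX_of_surj {R S : Type} [Group R] [Group S] (g : R →* S) (hg : Function.Surjective g)
    (h : (XX p) R) : (XX p) S := by
  obtain ⟨h1, h2, h3, h4, h5⟩ := h
  refine ⟨Finite.of_surjective g hg, Group.isSolvable_of_surjective hg, ?_, ?_, ?_⟩
  · intro f hf
    exact h3 (f.comp g) (hf.comp hg)
  · intro f hf
    exact h4 (f.comp g) (hf.comp hg)
  · intro f hf
    exact h5 (f.comp g) (hf.comp hg)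

lemma isPrim_transport {A B : Type} [Group A] [Group B] (e : A ≃* B) (h : IsPrim A) :
    IsPrim B := by
  obtain ⟨M, hM, hc⟩ := h
  refine ⟨M.map e.toMonoidHom, ?_, ?_⟩
  · have := (OrderIso.isCoatom_iff (e.mapSubgroup) M).mpr hM
    exact this
  · rw [eq_bot_iff]
    intro x hx
    have h1 : e.symm x ∈ M.normalCore := by
      intro b
      have h2 := hx (e b)
      obtain ⟨m, hm, hm2⟩ := h2
      have h3 : b * e.symm x * b⁻¹ = m := by
        apply e.injective
        rw [map_mul, map_mul, map_inv, e.apply_symm_apply]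
        exact hm2.symm
      rw [h3]; exact hm
    rw [hc, Subgroup.mem_bot] at h1
    rw [Subgroup.mem_bot]
    have := congrArg e h1
    rwa [e.apply_symm_apply, map_one] at this

lemma isPrim_z5 : IsPrim (Multiplicative (ZMod p)) := by
  have hs : IsSimpleGroup (Multiplicative (ZMod p)) := by
    apply isSimpleGroup_of_prime_card (p := p)
    simp [Nat.card_eq_fintype_card]
  exact ⟨⊥, isCoatom_bot, Subgroup.normalCore_eq_self ⊥⟩

/-- the complement of the plane in a subgroup above `(Ks p)` -/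
def cpl (L : Subgroup (Gp p)) : Subgroup L where
  carrier := {l | (l : (Gp p)).v = 0}
  mul_mem' := by
    intro a b ha hb
    change (a : (Gp p)).v + act (a : (Gp p)).q (b : (Gp p)).v = 0
    rw [show (a : (Gp p)).v = 0 from ha, show (b : (Gp p)).v = 0 from hb, act_zero, add_zero]
  one_mem' := rfl
  inv_mem' := by
    intro a ha
    change -(act (a : (Gp p)).q⁻¹ (a : (Gp p)).v) = 0
    rw [show (a : (Gp p)).v = 0 from ha, act_zero, neg_zero]

lemma tr_mem {L : Subgroup (Gp p)} (hL : (Ks p) ≤ L) (v : (Pl p)) : tr v ∈ L := hL (Vs_le_Ks rfl)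

lemma decomp (g : (Gp p)) : g = tr g.v * ⟨0, g.q⟩ := by
  ext1
  · simp [tr, act_zero]
  · simp [tr]

lemma isPrim_of_ge {L : Subgroup (Gp p)} (hL : (Ks p) ≤ L) : IsPrim L := by
  refine ⟨cpl L, ?_, ?_⟩
  · constructor
    · intro h
      have h1 : (⟨tr (1, 0), tr_mem hL _⟩ : L) ∈ cpl L := by rw [h]; trivial
      have h2 : ((1, 0) : (Pl p)) = 0 := h1
      have h3 : (1 : ZMod p) = 0 := congrArg Prod.fst h2
      exact one_ne_zero h3
    · intro T hT
      obtain ⟨hle, hne⟩ := SetLike.lt_iff_le_and_exists.mp hT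
      obtain ⟨l, hlT, hl⟩ := hne
      have hv : (l : (Gp p)).v ≠ 0 := hl
      -- all complements parts are in T
      have hq : ∀ g : (Gp p), g ∈ L → ∃ h0 : (⟨0, g.q⟩ : (Gp p)) ∈ L, (⟨⟨0, g.q⟩, h0⟩ : L) ∈ T := by
        intro g hg
        have h1 : (⟨0, g.q⟩ : (Gp p)) = (tr g.v)⁻¹ * g := by
          rw [eq_inv_mul_iff_mul_eq]; exact (decomp g).symm
        have h2 : (⟨0, g.q⟩ : (Gp p)) ∈ L := by
          rw [h1]; exact L.mul_mem (L.inv_mem (tr_mem hL _)) hg
        exact ⟨h2, hle rfl⟩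
      have hcc : (⟨cc, hL cc_mem⟩ : L) ∈ T := hle rfl
      obtain ⟨h0, h0T⟩ := hq l l.2
      have htv : (⟨tr (l : (Gp p)).v, tr_mem hL _⟩ : L) ∈ T := by
        have : (⟨tr (l : (Gp p)).v, tr_mem hL _⟩ : L) = l * (⟨⟨0, (l : (Gp p)).q⟩, h0⟩ : L)⁻¹ := by
          apply Subtype.ext
          change tr (l : (Gp p)).v = (l : (Gp p)) * (⟨0, (l : (Gp p)).q⟩ : (Gp p))⁻¹
          rw [eq_mul_inv_iff_mul_eq]; exact (decomp _).symm
        rw [this]
        exact T.mul_mem hlT (T.inv_mem h0T)
      have htv2 : (⟨tr (rot (l : (Gp p)).v), tr_mem hL _⟩ : L) ∈ T := by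
        have : (⟨tr (rot (l : (Gp p)).v), tr_mem hL _⟩ : L)
            = ⟨cc, hL cc_mem⟩ * ⟨tr (l : (Gp p)).v, tr_mem hL _⟩ * (⟨cc, hL cc_mem⟩ : L)⁻¹ := by
          apply Subtype.ext
          exact (conj_cc _).symm
        rw [this]
        exact T.mul_mem (T.mul_mem hcc htv) (T.inv_mem hcc)
      rw [eq_top_iff]
      rintro g -
      obtain ⟨a, b, hab⟩ := span_plane (l : (Gp p)).v (g : (Gp p)).v hv
      obtain ⟨g0, g0T⟩ := hq g g.2
      have : g = (⟨tr (l : (Gp p)).v, tr_mem hL _⟩ : L) ^ a.val *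
          (⟨tr (rot (l : (Gp p)).v), tr_mem hL _⟩ : L) ^ b.val * ⟨⟨0, (g : (Gp p)).q⟩, g0⟩ := by
        apply Subtype.ext
        change (g : (Gp p)) = (tr (l : (Gp p)).v) ^ a.val * (tr (rot (l : (Gp p)).v)) ^ b.val
          * (⟨0, (g : (Gp p)).q⟩ : (Gp p))
        rw [tr_pow, tr_pow]
        ext1
        · simp only [tr, mul_v, mul_q, act_one, act_zero, add_zero]
          exact hab
        · simp only [tr, mul_q, one_mul]
      rw [this]
      exact T.mul_mem (T.mul_mem (T.pow_mem htv _) (T.pow_mem htv2 _)) g0T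
  · by_contra hne
    have h1 : ((cpl L).normalCore.map L.subtype) ≠ ⊥ := by
      intro h
      apply hne
      rw [Subgroup.map_eq_bot_iff_of_injective _ L.subtype_injective] at h
      exact h
    have h2 := Vs_le_of_normalised h1 (by
      rintro k hk _ ⟨n, hn, rfl⟩
      exact ⟨(⟨k, hL hk⟩ : L) * n * (⟨k, hL hk⟩ : L)⁻¹,
        (inferInstance : (cpl L).normalCore.Normal).conj_mem n hn _, rfl⟩)
    have h3 : tr (1, 0) ∈ (cpl L).normalCore.map L.subtype := h2 rfl
    obtain ⟨n, hn, hn2⟩ := h3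
    have h4 : (n : (Gp p)).v = 0 := (cpl L).normalCore_le hn
    have h5 : (n : (Gp p)) = tr (1, 0) := hn2
    rw [h5] at h4
    have h6 : (1 : ZMod p) = 0 := congrArg Prod.fst h4
    exact one_ne_zero h6


lemma isPrim_Ks : IsPrim (Ks p) := isPrim_of_ge (le_refl _)

lemma isPrim_Gp : IsPrim (Gp p) :=
  isPrim_transport Subgroup.topEquiv (isPrim_of_ge (L := ⊤) le_top)

lemma isSchunck_XX : IsSchunck (XX p) where
  soluble := fun G _ h => ⟨h.1, h.2.1⟩
  iso := fun G H _ _ ⟨e⟩ h => XX_of_surj e.toMonoidHom e.surjective h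
  quot := fun G _ N _ h => XX_of_surj (QuotientGroup.mk' N) (QuotientGroup.mk'_surjective N) h
  prim := by
    intro G _ _ hs hall
    have key : ∀ (Q : Type) [Group Q], IsPrim Q → (∀ R : Type, ∀ [Group R], (XX p) R →
        ∀ f : R →* Q, ¬ Function.Surjective f) → ∀ f : G →* Q, ¬ Function.Surjective f := by
      intro Q _ hQ hR f hf
      let e := QuotientGroup.quotientKerEquivOfSurjective f hf
      have h1 : IsPrim (G ⧸ f.ker) := isPrim_transport e.symm hQ
      have h2 := hall f.ker h1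
      exact hR _ h2 e.toMonoidHom e.surjective
    refine ⟨inferInstance, hs, ?_, ?_, ?_⟩
    · exact key _ isPrim_z5 (fun R _ h => h.2.2.1)
    · exact key _ isPrim_Ks (fun R _ h => h.2.2.2.1)
    · exact key _ isPrim_Gp (fun R _ h => h.2.2.2.2)

lemma rot_pow : ∀ i j : ZMod 3, i ≠ 0 → ∃ l ∈ Finset.range 3,
    (DihedralGroup.r i : DihedralGroup 3) ^ l = DihedralGroup.r j := by
  decide +kernel

lemma zq_pow (q : DihedralGroup 3) (l : ℕ) : (⟨0, q⟩ : (Gp p)) ^ l = ⟨0, q ^ l⟩ := by
  induction l with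
  | zero => rfl
  | succ l ih =>
    rw [pow_succ, ih]
    ext1
    · simp [act_zero]
    · simp [pow_succ]

/-- Key lemma for `X^2 = X`: the image of a normal `X`-subgroup in `(Gp p)` is trivial. -/
lemma map_eq_bot {R : Type} [Group R] (f : R →* (Gp p)) (hf : (Ks p) ≤ f.range) (N : Subgroup R)
    [N.Normal] (hN : (XX p) N) : N.map f = ⊥ := by
  by_contra hne
  have hnorm : ∀ k ∈ (Ks p), ∀ n ∈ N.map f, k * n * k⁻¹ ∈ N.map f := by
    intro k hk n hn
    obtain ⟨x, rfl⟩ := hf hk
    obtain ⟨y, hy, rfl⟩ := hn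
    exact ⟨x * y * x⁻¹, (inferInstance : N.Normal).conj_mem y hy x, by simp⟩
  have hV := Vs_le_of_normalised hne hnorm
  by_cases h1 : ∀ n ∈ N.map f, n.q = 1
  · -- the image is the plane
    let g : N →* Multiplicative (ZMod p) :=
      { toFun := fun n => Multiplicative.ofAdd (f n).v.1
        map_one' := by
          change Multiplicative.ofAdd (f 1).v.1 = 1
          rw [map_one]; rfl
        map_mul' := by
          intro a b
          change Multiplicative.ofAdd (f (a * b)).v.1 = _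
          have ha : (f a).q = 1 := h1 _ ⟨a, a.2, rfl⟩
          rw [map_mul, mul_v, ha, act_one]
          rfl }
    apply hN.2.2.1 g
    intro z
    obtain ⟨n, hn, hn2⟩ := hV (show tr (Multiplicative.toAdd z, 0) ∈ (Vs p) from rfl)
    refine ⟨⟨n, hn⟩, ?_⟩
    change Multiplicative.ofAdd (f n).v.1 = z
    rw [hn2]; rfl
  · push Not at h1
    obtain ⟨n, hn, hnq⟩ := h1
    have key : ∀ m ∈ N.map f, ∀ i : ZMod 3, m.q = DihedralGroup.r i → i ≠ 0 → (Ks p) ≤ N.map f := by
      intro m hm i hmi hi k hk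
      obtain ⟨j, hj⟩ := mem_Ks.mp hk
      have h2 : (⟨0, m.q⟩ : (Gp p)) ∈ N.map f := by
        have : (⟨0, m.q⟩ : (Gp p)) = (tr m.v)⁻¹ * m := by
          rw [eq_inv_mul_iff_mul_eq]; exact (decomp m).symm
        rw [this]
        exact Subgroup.mul_mem _ (Subgroup.inv_mem _ (hV rfl)) hm
      obtain ⟨l, _, h3⟩ := rot_pow i j hi
      rw [decomp k, hj, ← h3, ← hmi, ← zq_pow]
      exact Subgroup.mul_mem _ (hV rfl) (Subgroup.pow_mem _ h2 l)
    by_cases hpar : ∀ m ∈ N.map f, m ∈ (Ks p)
    · -- the image is `(Ks p)`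
      have hK : (Ks p) ≤ N.map f := by
        obtain ⟨i, hi⟩ := mem_Ks.mp (hpar n hn)
        apply key n hn i hi
        rintro rfl
        exact hnq hi
      let g : N →* (Ks p) := (f.comp N.subtype).codRestrict (Ks p) (fun x => hpar _ ⟨x, x.2, rfl⟩)
      apply hN.2.2.2.1 g
      intro z
      obtain ⟨x, hx, hx2⟩ := hK z.2
      exact ⟨⟨x, hx⟩, Subtype.ext hx2⟩
    · -- the image is everything
      push Not at hpar
      obtain ⟨m, hm, hmK⟩ := hpar
      have hms : ∃ i, m.q = DihedralGroup.sr i := by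
        cases hq : m.q with
        | r i => exact absurd (mem_Ks.mpr ⟨i, hq⟩) hmK
        | sr i => exact ⟨i, rfl⟩
      obtain ⟨i, hi⟩ := hms
      have hK : (Ks p) ≤ N.map f := by
        have hc : cc * m * cc⁻¹ * m⁻¹ ∈ N.map f :=
          Subgroup.mul_mem _ (hnorm cc cc_mem m hm) (Subgroup.inv_mem _ hm)
        apply key _ hc 2 ?_ (by decide)
        simp only [mul_q, inv_q, hi, cc]
        clear hi
        revert i
        decide +kernel
      let g : N →* (Gp p) := f.comp N.subtype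
      apply hN.2.2.2.2 g
      intro z
      have hz : z ∈ N.map f := by
        by_cases hzK : z ∈ (Ks p)
        · exact hK hzK
        · have hzs : ∃ j, z.q = DihedralGroup.sr j := by
            cases hq : z.q with
            | r j => exact absurd (mem_Ks.mpr ⟨j, hq⟩) hzK
            | sr j => exact ⟨j, rfl⟩
          obtain ⟨j, hj⟩ := hzs
          have h5 : z * m⁻¹ ∈ (Ks p) := by
            rw [mem_Ks]
            refine ⟨i - j, ?_⟩
            simp only [mul_q, inv_q, hi, hj, DihedralGroup.inv_sr, DihedralGroup.sr_mul_sr]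
          have h6 : z = z * m⁻¹ * m := by group
          rw [h6]
          exact Subgroup.mul_mem _ (hK h5) hm
      obtain ⟨x, hx, hx2⟩ := hz
      exact ⟨⟨x, hx⟩, hx2⟩

lemma five_map {R : Type} [Group R] (f : R →* Multiplicative (ZMod p))
    (hf : Function.Surjective f) (N : Subgroup R) [hNn : N.Normal] (hN : (XX p) N) : N.map f = ⊥ := by
  have hs : IsSimpleGroup (Multiplicative (ZMod p)) := by
    apply isSimpleGroup_of_prime_card (p := p)
    simp [Nat.card_eq_fintype_card]
  rcases (hNn.map f hf).eq_bot_or_eq_top with h | h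
  · exact h
  · exfalso
    apply hN.2.2.1 (f.comp N.subtype)
    intro z
    have : z ∈ N.map f := by rw [h]; trivial
    obtain ⟨x, hx, hx2⟩ := this
    exact ⟨⟨x, hx⟩, hx2⟩

/-- descend an epimorphism to a quotient -/
lemma descend {R Q : Type} [Group R] [Group Q] (N : Subgroup R) [N.Normal] (f : R →* Q)
    (hf : Function.Surjective f) (h : N.map f = ⊥) :
    ∃ g : R ⧸ N →* Q, Function.Surjective g := by
  have hk : N ≤ f.ker := by
    intro x hx
    rw [MonoidHom.mem_ker, ← Subgroup.mem_bot, ← h]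
    exact ⟨x, hx, rfl⟩
  refine ⟨QuotientGroup.lift N f hk, ?_⟩
  intro z
  obtain ⟨x, rfl⟩ := hf z
  exact ⟨(x : R ⧸ N), rfl⟩

lemma XX_ext {R : Type} [Group R] (h : prodClass (XX p) (XX p) R) : (XX p) R := by
  obtain ⟨h1, h2, N, hNn, hN, hQ⟩ := h
  refine ⟨h1, h2, ?_, ?_, ?_⟩
  · intro f hf
    obtain ⟨g, hg⟩ := descend N f hf (five_map f hf N hN)
    exact hQ.2.2.1 g hg
  · intro f hf
    have h3 : N.map ((Ks p).subtype.comp f) = ⊥ := by
      apply map_eq_bot _ _ N hN
      intro k hk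
      obtain ⟨x, hx⟩ := hf ⟨k, hk⟩
      exact ⟨x, by rw [MonoidHom.comp_apply, hx]; rfl⟩
    have h4 : N.map f = ⊥ := by
      rw [← Subgroup.map_map] at h3
      exact (Subgroup.map_eq_bot_iff_of_injective _ (Ks p).subtype_injective).mp h3
    obtain ⟨g, hg⟩ := descend N f hf h4
    exact hQ.2.2.2.1 g hg
  · intro f hf
    have h3 : N.map f = ⊥ := by
      apply map_eq_bot _ _ N hN
      intro k _
      exact hf k
    obtain ⟨g, hg⟩ := descend N f hf h3
    exact hQ.2.2.2.2 g hg

lemma card_Ks : Nat.card (Ks p) = 3 * (p * p) := by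
  have h1 := Subgroup.card_mul_index (Ks p)
  have h2 : (Ks p).index = 2 := by
    unfold Ks
    rw [Subgroup.index_ker]
    have h3 : (par.comp (pr (p := p))).range = ⊤ := by
      rw [MonoidHom.range_eq_top]
      intro z
      have : ∃ q : DihedralGroup 3, par q = z := by
        revert z
        decide +kernel
      obtain ⟨q, hq⟩ := this
      exact ⟨⟨0, q⟩, hq⟩
    rw [h3, Subgroup.card_top]
    simp [Nat.card_eq_fintype_card]
  rw [h2, card_Gp] at h1
  omega

/-- Finite soluble groups of order prime to five belong to the class. -/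
lemma XX_of_card {R : Type} [Group R] [Finite R] (hs : Group.IsSolvable R)
    (h : ¬ p ∣ Nat.card R) : (XX p) R := by
  have key : ∀ (Q : Type) [Group Q], p ∣ Nat.card Q → ∀ f : R →* Q, ¬ Function.Surjective f := by
    intro Q _ hQ f hf
    exact h (hQ.trans (Subgroup.card_dvd_of_surjective f hf))
  refine ⟨inferInstance, hs, key _ ?_, key _ ?_, key _ ?_⟩
  · simp [Nat.card_eq_fintype_card]
  · rw [card_Ks]; exact Dvd.intro_left (3 * p) (by ring)
  · rw [card_Gp]; exact Dvd.intro_left (6 * p) (by ring)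

lemma XX_trivial {R : Type} [Group R] [Subsingleton R] : (XX p) R := by
  apply XX_of_card
  · infer_instance
  · rw [Nat.card_unique, Nat.dvd_one]
    have := Good.five (p := p)
    omega

lemma prod_XX (R : Type) [Group R] : prodClass (XX p) (XX p) R ↔ (XX p) R := by
  constructor
  · exact XX_ext
  · intro h
    refine ⟨h.1, h.2.1, ⊥, inferInstance, XX_trivial, ?_⟩
    exact XX_of_surj (QuotientGroup.mk' ⊥) (QuotientGroup.mk'_surjective ⊥) h

/-- the dihedral subgroup of order ten -/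
def Dh (p : ℕ) [Good p] : Subgroup (Gp p) where
  carrier := {g | g.v.1 + g.v.2 = 0 ∧ (g.q = 1 ∨ g.q = DihedralGroup.sr 0)}
  mul_mem' := by
    rintro a b ⟨h1, h2⟩ ⟨h3, h4⟩
    constructor
    · rcases h2 with h2 | h2
      · change (a.v + act a.q b.v).1 + (a.v + act a.q b.v).2 = 0
        rw [h2, act_one, Prod.fst_add, Prod.snd_add]
        calc a.v.1 + b.v.1 + (a.v.2 + b.v.2) = (a.v.1 + a.v.2) + (b.v.1 + b.v.2) := by ring
          _ = 0 := by rw [h1, h3, add_zero]
      · change (a.v + act a.q b.v).1 + (a.v + act a.q b.v).2 = 0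
        have h5 : act a.q b.v = (b.v.2, b.v.1) := by rw [h2]; rfl
        rw [h5, Prod.fst_add, Prod.snd_add]
        calc a.v.1 + b.v.2 + (a.v.2 + b.v.1) = (a.v.1 + a.v.2) + (b.v.1 + b.v.2) := by ring
          _ = 0 := by rw [h1, h3, add_zero]
    · rw [mul_q]
      rcases h2 with h2 | h2 <;> rcases h4 with h4 | h4 <;> rw [h2, h4] <;> decide
  one_mem' := by
    constructor
    · show (0 : ZMod p) + 0 = 0
      exact add_zero 0
    · left; rfl
  inv_mem' := by
    rintro a ⟨h1, h2⟩
    constructor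
    · rcases h2 with h2 | h2
      · change (-(act a.q⁻¹ a.v)).1 + (-(act a.q⁻¹ a.v)).2 = 0
        rw [h2, inv_one, act_one, Prod.fst_neg, Prod.snd_neg]
        calc -a.v.1 + -a.v.2 = -(a.v.1 + a.v.2) := by ring
          _ = 0 := by rw [h1, neg_zero]
      · change (-(act a.q⁻¹ a.v)).1 + (-(act a.q⁻¹ a.v)).2 = 0
        have h5 : act a.q⁻¹ a.v = (a.v.2, a.v.1) := by rw [h2]; rfl
        rw [h5, Prod.fst_neg, Prod.snd_neg]
        calc -a.v.2 + -a.v.1 = -(a.v.1 + a.v.2) := by ring
          _ = 0 := by rw [h1, neg_zero]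
    · rw [inv_q]
      rcases h2 with h2 | h2 <;> rw [h2] <;> decide

lemma mem_Dh {g : (Gp p)} : g ∈ (Dh p) ↔ g.v.1 + g.v.2 = 0 ∧ (g.q = 1 ∨ g.q = DihedralGroup.sr 0) :=
  Iff.rfl

lemma card_Dh_le : Nat.card (Dh p) ≤ p * 6 := by
  have h1 : Nat.card (Dh p) ≤ Nat.card (ZMod p × DihedralGroup 3) := by
    apply Nat.card_le_card_of_injective (fun g : (Dh p) => ((g : (Gp p)).v.1, (g : (Gp p)).q))
    intro a b h
    simp only [Prod.mk.injEq] at h
    apply Subtype.ext
    ext1
    · apply Prod.ext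
      · exact h.1
      · have ha := (mem_Dh.mp a.2).1
        have hb := (mem_Dh.mp b.2).1
        have h3 : (a : (Gp p)).v.1 + (a : (Gp p)).v.2 = (a : (Gp p)).v.1 + (b : (Gp p)).v.2 := by
          rw [ha, h.1, hb]
        exact add_left_cancel h3
    · exact h.2
  rw [Nat.card_prod, Nat.card_zmod, DihedralGroup.nat_card] at h1
  exact h1

lemma sq_five (z : Multiplicative (ZMod p)) (h : z * z = 1) : z = 1 := by
  have h1 : Multiplicative.toAdd z + Multiplicative.toAdd z = 0 := congrArg Multiplicative.toAdd h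
  have h2 : (2 : ZMod p) * Multiplicative.toAdd z = 0 := by rw [two_mul]; exact h1
  rcases mul_eq_zero.1 h2 with h3 | h3
  · exact absurd h3 two_ne
  · exact congrArg Multiplicative.ofAdd h3

lemma XX_Dh : (XX p) (Dh p) := by
  refine ⟨inferInstance, inferInstance, ?_, ?_, ?_⟩
  · intro f hf
    have hinv : ∀ g : (Dh p), (g : (Gp p)).q = DihedralGroup.sr 0 → f g = 1 := by
      intro g hg
      apply sq_five
      rw [← map_mul]
      have : g * g = 1 := by
        apply Subtype.ext
        have hv := (mem_Dh.mp g.2).1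
        change (g : (Gp p)) * (g : (Gp p)) = 1
        ext1
        · rw [mul_v, hg]
          change (g : (Gp p)).v + ((g : (Gp p)).v.2, (g : (Gp p)).v.1) = 0
          apply Prod.ext
          · exact hv
          · change (g : (Gp p)).v.2 + (g : (Gp p)).v.1 = 0
            rw [add_comm]; exact hv
        · rw [mul_q, hg]
          show DihedralGroup.sr 0 * DihedralGroup.sr 0 = (1 : DihedralGroup 3)
          decide
      rw [this, map_one]
    have hall : ∀ g : (Dh p), f g = 1 := by
      intro g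
      rcases (mem_Dh.mp g.2).2 with hq | hq
      · let t : (Dh p) := ⟨⟨0, DihedralGroup.sr 0⟩, by
          rw [mem_Dh]; exact ⟨by show (0 : ZMod p) + 0 = 0; exact add_zero 0, Or.inr rfl⟩⟩
        have h1 : f t = 1 := hinv t rfl
        have h2 : f (g * t) = 1 := by
          apply hinv
          change (g : (Gp p)).q * DihedralGroup.sr 0 = DihedralGroup.sr 0
          rw [hq, one_mul]
        rw [map_mul, h1, mul_one] at h2
        exact h2
      · exact hinv g hq
    obtain ⟨g, hg⟩ := hf (Multiplicative.ofAdd 1)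
    rw [hall g] at hg
    have h9 : (0 : ZMod p) = 1 := hg
    exact zero_ne_one h9
  · intro f hf
    have h1 := Nat.card_le_card_of_surjective f hf
    rw [card_Ks] at h1
    have h2 := card_Dh_le (p := p)
    have h3 := Good.five (p := p)
    nlinarith
  · intro f hf
    have h1 := Nat.card_le_card_of_surjective f hf
    rw [card_Gp] at h1
    have h2 := card_Dh_le (p := p)
    have h3 := Good.five (p := p)
    nlinarith

lemma XX_quot : (XX p) ((Gp p) ⧸ (Vs p)) := by
  apply XX_of_card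
  · infer_instance
  · have h1 : Nat.card ((Gp p) ⧸ (Vs p)) = 6 := by
      have e : (Gp p) ⧸ (Vs p) ≃* DihedralGroup 3 :=
        QuotientGroup.quotientKerEquivOfSurjective pr (fun q => ⟨⟨0, q⟩, rfl⟩)
      rw [Nat.card_congr e.toEquiv, DihedralGroup.nat_card]
    rw [h1]
    intro hd
    have h2 := Nat.le_of_dvd (by norm_num) hd
    have h3 := Good.five (p := p)
    have h4 := Good.two (p := p)
    have h5 : p = 5 := by omega
    rw [h5] at hd
    norm_num at hd


end Pool.Agent.Y434.SK
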