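import Pool.Agent.Y434.SK.Base

set_option autoImplicit false

/-!
The general form: idempotent Schunck classes that are not D-classes.
-/

namespace Pool.Agent.Y434.SK

open Pool.Agent.Results.MP_d8b6f8_al.NotDClass (GroupClass IsPrim IsSchunck prodClass IsMaxSub
  IsProj IsDClass isPrim_transport descend par)

/-- The intersection of two classes. -/
def inter (X Y : GroupClass) : GroupClass := fun G _ => X G ∧ Y G

theorem isSchunck_inter {X Y : GroupClass} (hX : IsSchunck X) (hY : IsSchunck Y) :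
    IsSchunck (inter X Y) where
  soluble := fun G _ h => hX.soluble G h.1
  iso := fun G H _ _ e h => ⟨hX.iso G H e h.1, hY.iso G H e h.2⟩
  quot := fun G _ N _ h => ⟨hX.quot G N h.1, hY.quot G N h.2⟩
  prim := fun G _ _ hs h => ⟨hX.prim G hs fun N _ hN => (h N hN).1,
    hY.prim G hs fun N _ hN => (h N hN).2⟩

theorem surj_mem {Y : GroupClass} (hY : IsSchunck Y) {G H : Type} [Group G] [Group H]
    (f : G →* H) (hf : Function.Surjective f) (h : Y G) : Y H :=
  hY.iso (G ⧸ f.ker) H ⟨QuotientGroup.quotientKerEquivOfSurjective f hf⟩ (hY.quot G f.ker h)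

/-- A Schunck class is contained in its square. -/
theorem le_prod {X : GroupClass} (hX : IsSchunck X) {G : Type} [Group G] (h : X G) :
    prodClass X X G := by
  refine ⟨(hX.soluble G h).1, (hX.soluble G h).2, ⊤, inferInstance, ?_, hX.quot G ⊤ h⟩
  exact hX.iso G _ ⟨Subgroup.topEquiv.symm⟩ h

theorem prod_inter {X Y : GroupClass} (hX : IsSchunck X) (hY : IsSchunck Y)
    (h1 : ∀ (G : Type) [Group G], prodClass X X G ↔ X G)
    (h2 : ∀ (G : Type) [Group G], prodClass Y Y G ↔ Y G) (G : Type) [Group G] :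
    prodClass (inter X Y) (inter X Y) G ↔ inter X Y G := by
  constructor
  · rintro ⟨hf, hs, N, hN, hA, hB⟩
    exact ⟨(h1 G).1 ⟨hf, hs, N, hN, hA.1, hB.1⟩, (h2 G).1 ⟨hf, hs, N, hN, hA.2, hB.2⟩⟩
  · intro h
    exact le_prod (isSchunck_inter hX hY) h

variable {p : ℕ} [Good p]

/-- the dihedral group of order `2p` inside the group of order `6p²` -/
def dih : DihedralGroup p → Gp p
  | DihedralGroup.r i => ⟨(i, -i), 1⟩
  | DihedralGroup.sr i => ⟨(-i, i), DihedralGroup.sr 0⟩

theorem dih_mul (a b : DihedralGroup p) : dih (a * b) = dih a * dih b := by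
  cases a with
  | r i =>
    cases b with
    | r j =>
      rw [DihedralGroup.r_mul_r]
      refine Gp.ext (Prod.ext ?_ ?_) ?_
      · show i + j = i + j
        rfl
      · show -(i + j) = -i + -j
        ring
      · show (1 : DihedralGroup 3) = 1 * 1
        rfl
    | sr j =>
      rw [DihedralGroup.r_mul_sr]
      refine Gp.ext (Prod.ext ?_ ?_) ?_
      · show -(j - i) = i + -j
        ring
      · show j - i = -i + j
        ring
      · show DihedralGroup.sr 0 = 1 * DihedralGroup.sr 0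
        rw [one_mul]
  | sr i =>
    cases b with
    | r j =>
      rw [DihedralGroup.sr_mul_r]
      refine Gp.ext (Prod.ext ?_ ?_) ?_
      · show -(i + j) = -i + -j
        ring
      · show i + j = i + j
        rfl
      · show DihedralGroup.sr 0 = DihedralGroup.sr 0 * 1
        rw [mul_one]
    | sr j =>
      rw [DihedralGroup.sr_mul_sr]
      refine Gp.ext (Prod.ext ?_ ?_) ?_
      · show j - i = -i + j
        ring
      · show -(j - i) = i + -j
        ring
      · show (1 : DihedralGroup 3) = DihedralGroup.sr 0 * DihedralGroup.sr 0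
        decide

theorem dih_mem (a : DihedralGroup p) : dih a ∈ Dh p := by
  rw [mem_Dh]
  cases a with
  | r i => exact ⟨by show i + -i = 0; ring, Or.inl rfl⟩
  | sr i => exact ⟨by show -i + i = 0; ring, Or.inr rfl⟩

/-- the isomorphism of the dihedral group of order `2p` with the subgroup -/
def dihHom (p : ℕ) [Good p] : DihedralGroup p →* Dh p where
  toFun a := ⟨dih a, dih_mem a⟩
  map_one' := by
    apply Subtype.ext
    refine Gp.ext (Prod.ext ?_ ?_) ?_
    · rfl
    · show -(0 : ZMod p) = 0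
      exact neg_zero
    · rfl
  map_mul' a b := Subtype.ext (dih_mul a b)

theorem dihHom_surj : Function.Surjective (dihHom p) := by
  rintro ⟨g, hg⟩
  have h := mem_Dh.mp hg
  rcases h.2 with hq | hq
  · refine ⟨DihedralGroup.r g.v.1, Subtype.ext (Gp.ext ?_ hq.symm)⟩
    show (g.v.1, -g.v.1) = g.v
    exact Prod.ext rfl (neg_eq_of_add_eq_zero_right h.1)
  · refine ⟨DihedralGroup.sr g.v.2, Subtype.ext (Gp.ext ?_ hq.symm)⟩
    show (-g.v.2, g.v.2) = g.v
    exact Prod.ext (neg_eq_of_add_eq_zero_left h.1) rfl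

theorem dihHom_inj : Function.Injective (dihHom p) := by
  intro a b h
  have h1 : dih a = dih b := congrArg Subtype.val h
  have hv : (dih a).v = (dih b).v := congrArg Gp.v h1
  have hq : (dih a).q = (dih b).q := congrArg Gp.q h1
  cases a with
  | r i =>
    cases b with
    | r j =>
      have h2 : i = j := congrArg Prod.fst hv
      rw [h2]
    | sr j =>
      have h2 : (1 : DihedralGroup 3) = DihedralGroup.sr 0 := hq
      exact absurd h2 (by decide)
  | sr i =>
    cases b with
    | r j =>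
      have h2 : DihedralGroup.sr 0 = (1 : DihedralGroup 3) := hq
      exact absurd h2 (by decide)
    | sr j =>
      have h2 : i = j := congrArg Prod.snd hv
      rw [h2]

theorem solv_dih : Group.IsSolvable (DihedralGroup p) :=
  Group.isSolvable_of_isSolvable_injective (f := dihHom p) dihHom_inj

/-- The argument of the starting file, inside a smaller class. -/
theorem not_D {Y : GroupClass} (hY : IsSchunck Y) (hD : Y (Dh p)) (hQ : Y ((Gp p) ⧸ (Vs p))) :
    ¬ IsDClass (inter (XX p) Y) := by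
  rintro ⟨_, hDc⟩
  -- a maximal subgroup in the class above `(Dh p)`
  have hfin : {K : Subgroup (Gp p) | inter (XX p) Y K}.Finite := Set.toFinite _
  obtain ⟨E, hDE, hE⟩ := hfin.exists_le_maximal (a := (Dh p)) (show inter (XX p) Y (Dh p) from ⟨XX_Dh, hD⟩)
  have hEmax : IsMaxSub (inter (XX p) Y) E := by
    refine ⟨hE.prop, ?_⟩
    intro K hK hXK
    exact le_antisymm (hE.le_of_ge hXK hK) hK
  have hproj := hDc (Gp p) inferInstance E hEmax
  have h1 := hproj (Vs p)
  have h2 : (⊤ : Subgroup ((Gp p) ⧸ (Vs p))) = E.map (QuotientGroup.mk' (Vs p)) := by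
    apply h1.2 ⊤ le_top
    exact surj_mem (isSchunck_inter isSchunck_XX hY)
      (Subgroup.topEquiv (G := (Gp p) ⧸ (Vs p))).symm.toMonoidHom
      (Subgroup.topEquiv (G := (Gp p) ⧸ (Vs p))).symm.surjective ⟨XX_quot, hQ⟩
  -- the intersection with the plane
  have hdec : ∀ g : (Gp p), ∃ e ∈ E, ∃ v ∈ (Vs p), g = e * v := by
    intro g
    have : (g : (Gp p) ⧸ (Vs p)) ∈ E.map (QuotientGroup.mk' (Vs p)) := by rw [← h2]; trivial
    obtain ⟨e, he, he2⟩ := this
    refine ⟨e, he, e⁻¹ * g, ?_, by group⟩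
    exact QuotientGroup.eq.mp he2
  have hne : E ⊓ (Vs p) ≠ ⊥ := by
    intro h
    have h3 : tr (1, -1) ∈ E ⊓ (Vs p) := by
      refine ⟨hDE ?_, rfl⟩
      rw [mem_Dh]
      exact ⟨by show (1 : ZMod p) + -1 = 0; ring, Or.inl rfl⟩
    rw [h, Subgroup.mem_bot] at h3
    have h4 := congrArg Gp.v h3
    have h5 : (1 : ZMod p) = 0 := congrArg Prod.fst h4
    exact one_ne_zero h5
  have hVab : ∀ a ∈ (Vs p), ∀ b ∈ (Vs p), a * b = b * a := by
    intro a ha b hb
    have ha' : a.q = 1 := ha
    have hb' : b.q = 1 := hb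
    ext1
    · rw [mul_v, mul_v, ha', hb', act_one, act_one, add_comm]
    · rw [mul_q, mul_q, ha', hb']
  have hVE : (Vs p) ≤ E ⊓ (Vs p) := by
    apply Vs_le_of_normalised hne
    rintro k - n ⟨hnE, hnV⟩
    obtain ⟨e, he, v, hv, rfl⟩ := hdec k
    have h3 : e * v * n * (e * v)⁻¹ = e * n * e⁻¹ := by
      calc e * v * n * (e * v)⁻¹ = e * (v * n) * v⁻¹ * e⁻¹ := by group
        _ = e * (n * v) * v⁻¹ * e⁻¹ := by rw [hVab v hv n hnV]
        _ = e * n * e⁻¹ := by group
    rw [h3]
    refine ⟨E.mul_mem (E.mul_mem he hnE) (E.inv_mem he), ?_⟩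
    exact (inferInstance : (Vs p).Normal).conj_mem n hnV e
  have hEtop : E = ⊤ := by
    rw [eq_top_iff]
    rintro g -
    obtain ⟨e, he, v, hv, rfl⟩ := hdec g
    exact E.mul_mem he (hVE hv).1
  have hX := hE.prop
  rw [hEtop] at hX
  exact hX.1.2.2.2.2 (Subgroup.topEquiv (G := (Gp p))).toMonoidHom
    (Subgroup.topEquiv (G := (Gp p))).surjective

theorem quot_mem {Y : GroupClass} (hY : IsSchunck Y) (h : Y (DihedralGroup 3)) : Y ((Gp p) ⧸ (Vs p)) :=
  hY.iso (DihedralGroup 3) _
    ⟨(QuotientGroup.quotientKerEquivOfSurjective pr (fun q => ⟨⟨0, q⟩, rfl⟩)).symm⟩ h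

/-- The finite soluble groups with no epimorphic image of order `q`, for every prime `q ∈ π`. -/
def PP (π : Set ℕ) : GroupClass := fun G _ =>
  Finite G ∧ Group.IsSolvable G ∧
    ∀ q ∈ π, q.Prime → ∀ f : G →* Multiplicative (ZMod q), ¬ Function.Surjective f

theorem simple_z {q : ℕ} (hq : q.Prime) : IsSimpleGroup (Multiplicative (ZMod q)) := by
  haveI : Fact q.Prime := ⟨hq⟩
  apply isSimpleGroup_of_prime_card (p := q)
  simp [Nat.card_eq_fintype_card]

theorem isPrim_z {q : ℕ} (hq : q.Prime) : IsPrim (Multiplicative (ZMod q)) := by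
  haveI := simple_z hq
  exact ⟨⊥, isCoatom_bot, Subgroup.normalCore_eq_self ⊥⟩

theorem isSchunck_PP (π : Set ℕ) : IsSchunck (PP π) where
  soluble := fun G _ h => ⟨h.1, h.2.1⟩
  iso := by
    rintro G H _ _ ⟨e⟩ ⟨h1, h2, h3⟩
    refine ⟨Finite.of_equiv G e.toEquiv, Group.isSolvable_of_surjective (f := e.toMonoidHom)
      e.surjective, fun q hq hp f hf => ?_⟩
    exact h3 q hq hp (f.comp e.toMonoidHom) (hf.comp e.surjective)
  quot := by
    rintro G _ N _ ⟨h1, h2, h3⟩
    refine ⟨inferInstance, Group.isSolvable_of_surjective (QuotientGroup.mk'_surjective N),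
      fun q hq hp f hf => ?_⟩
    exact h3 q hq hp (f.comp (QuotientGroup.mk' N)) (hf.comp (QuotientGroup.mk'_surjective N))
  prim := by
    intro G _ _ hs h
    refine ⟨inferInstance, hs, fun q hq hp f hf => ?_⟩
    have e : G ⧸ f.ker ≃* Multiplicative (ZMod q) :=
      QuotientGroup.quotientKerEquivOfSurjective f hf
    have h1 := h f.ker (isPrim_transport e.symm (isPrim_z hp))
    exact h1.2.2 q hq hp e.toMonoidHom e.surjective

theorem prod_PP (π : Set ℕ) (G : Type) [Group G] : prodClass (PP π) (PP π) G ↔ PP π G := by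
  constructor
  · rintro ⟨h1, h2, N, hN, hA, hB⟩
    refine ⟨h1, h2, fun q hq hp f hf => ?_⟩
    haveI := simple_z hp
    rcases (hN.map f hf).eq_bot_or_eq_top with h | h
    · obtain ⟨g, hg⟩ := descend N f hf h
      exact hB.2.2 q hq hp g hg
    · apply hA.2.2 q hq hp (f.comp N.subtype)
      intro z
      have : z ∈ N.map f := by rw [h]; trivial
      obtain ⟨x, hx, hx2⟩ := this
      exact ⟨⟨x, hx⟩, hx2⟩
  · intro h
    exact le_prod (isSchunck_PP π) h

theorem PP_of_small {π : Set ℕ} {G : Type} [Group G] [Finite G] (hs : Group.IsSolvable G)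
    (h : ∀ q ∈ π, q.Prime → ¬ q ∣ Nat.card G) : PP π G := by
  refine ⟨inferInstance, hs, fun q hq hp f hf => h q hq hp ?_⟩
  have h1 := Subgroup.card_dvd_of_surjective f hf
  have h2 : Nat.card (Multiplicative (ZMod q)) = q := by
    rw [Nat.card_congr Multiplicative.toAdd, Nat.card_zmod]
  rwa [h2] at h1

/-- the primes indexed by `S`, all larger than `M` -/
def prs (M : ℕ) (S : Set ℕ) : Set ℕ := {q | ∃ n ∈ S, q = Nat.nth Nat.Prime (n + M)}

theorem prs_large {M : ℕ} {S : Set ℕ} {q : ℕ} (h : q ∈ prs M S) : M < q := by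
  obtain ⟨n, _, rfl⟩ := h
  have := Nat.add_two_le_nth_prime (n + M)
  omega

/-- the classes -/
def Phi (p M : ℕ) [Good p] (S : Set ℕ) : GroupClass := inter (XX p) (PP (prs M S))

theorem mem_Phi {M : ℕ} (hM : p ≤ M) {S : Set ℕ} {n : ℕ} :
    Phi p M S (Multiplicative (ZMod (Nat.nth Nat.Prime (n + M)))) ↔ n ∉ S := by
  have hp : (Nat.nth Nat.Prime (n + M)).Prime := Nat.prime_nth_prime _
  haveI : Fact (Nat.nth Nat.Prime (n + M)).Prime := ⟨hp⟩
  have hc : Nat.card (Multiplicative (ZMod (Nat.nth Nat.Prime (n + M)))) =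
      Nat.nth Nat.Prime (n + M) := by
    rw [Nat.card_congr Multiplicative.toAdd, Nat.card_zmod]
  constructor
  · intro h hn
    exact h.2.2.2 _ ⟨n, hn, rfl⟩ hp (MonoidHom.id _) Function.surjective_id
  · intro hn
    haveI : Finite (Multiplicative (ZMod (Nat.nth Nat.Prime (n + M)))) :=
      Finite.of_equiv (ZMod (Nat.nth Nat.Prime (n + M))) Multiplicative.ofAdd
    have hs : Group.IsSolvable (Multiplicative (ZMod (Nat.nth Nat.Prime (n + M)))) :=
      inferInstance
    refine ⟨XX_of_card hs ?_, PP_of_small hs ?_⟩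
    · rw [hc, Nat.prime_dvd_prime_iff_eq Good.prime hp]
      have := Nat.add_two_le_nth_prime (n + M)
      omega
    · rintro q ⟨m, hm, rfl⟩ hq hd
      rw [hc, Nat.prime_dvd_prime_iff_eq hq hp] at hd
      have h1 := Nat.nth_injective Nat.infinite_setOfPred_prime hd
      have h2 : m = n := by omega
      exact hn (h2 ▸ hm)

theorem Phi_injective {M : ℕ} (hM : p ≤ M) : Function.Injective (Phi p M) := by
  intro S T h
  ext n
  have h1 : Phi p M S (Multiplicative (ZMod (Nat.nth Nat.Prime (n + M)))) ↔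
      Phi p M T (Multiplicative (ZMod (Nat.nth Nat.Prime (n + M)))) := by rw [h]
  rw [mem_Phi hM, mem_Phi hM] at h1
  exact not_iff_not.1 h1

theorem main {Y : GroupClass} (hY : IsSchunck Y)
    (hYY : ∀ (G : Type) [Group G], prodClass Y Y G ↔ Y G) (h3 : Y (DihedralGroup 3))
    (h5 : Y (DihedralGroup p)) : IsSchunck (inter (XX p) Y) ∧
      (∀ (G : Type) [Group G], prodClass (inter (XX p) Y) (inter (XX p) Y) G ↔
        inter (XX p) Y G) ∧ ¬ IsDClass (inter (XX p) Y) :=
  ⟨isSchunck_inter isSchunck_XX hY,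
    fun G _ => prod_inter isSchunck_XX hY (fun G _ => prod_XX G) hYY G,
    not_D hY (surj_mem hY (dihHom p) dihHom_surj h5) (quot_mem hY h3)⟩

theorem exists_good (N : ℕ) : ∃ p, N < p ∧ Good p := by
  obtain ⟨p, h1, h2, h3⟩ := Nat.forall_exists_prime_gt_and_modEq (N + 5) (q := 3) (a := 2)
    (by norm_num) (by norm_num)
  refine ⟨p, by omega, h2, by omega, ?_⟩
  have h4 : p % 3 = 2 % 3 := h3
  omega

end Pool.Agent.Y434.SK
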